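import Mathlib

/-!
Infinity-delta sets of numerical semigroups always contain two consecutive integers `c - 1`, `c`
with `c ≥ 3`.
-/

namespace Pool.Agent.Results.MP_86b878_co.InfinityDelta

/-- The minimal generators of `S`: the nonzero elements of `S` which are not a sum of two nonzero
elements of `S`. -/
def gens (S : AddSubmonoid ℕ) : Set ℕ :=
  {a | a ∈ S ∧ a ≠ 0 ∧ ∀ b ∈ S, ∀ c ∈ S, b ≠ 0 → c ≠ 0 → a ≠ b + c}

/-- `z` is a factorization of `x`: a finitely supported family `z a` of multiplicities of the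
minimal generators `a` with `∑ z a * a = x`. -/
def IsFac (S : AddSubmonoid ℕ) (x : ℕ) (z : ℕ →₀ ℕ) : Prop :=
  (∀ a, z a ≠ 0 → a ∈ gens S) ∧ z.sum (fun a n => n * a) = x

/-- The largest multiplicity. -/
def nrm (z : ℕ →₀ ℕ) : ℕ := z.support.sup z

/-- The set `L_∞(x)`. -/
def LInf (S : AddSubmonoid ℕ) (x : ℕ) : Set ℕ := {l | ∃ z, IsFac S x z ∧ nrm z = l}

/-- `Δ_∞(x)`: the differences of consecutive elements of `L_∞(x)`. -/
def deltaX (S : AddSubmonoid ℕ) (x : ℕ) : Set ℕ :=
  {d | ∃ u ∈ LInf S x, ∃ v ∈ LInf S x, u < v ∧ (∀ w ∈ LInf S x, ¬ (u < w ∧ w < v)) ∧ d = v - u}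

/-- `Δ_∞(S)`, the union of all `Δ_∞(x)` for `x ∈ S`. -/
def deltaInf (S : AddSubmonoid ℕ) : Set ℕ := {d | ∃ x ∈ S, d ∈ deltaX S x}

variable {S : AddSubmonoid ℕ}

theorem le_nrm (z : ℕ →₀ ℕ) (a : ℕ) : z a ≤ nrm z := by
  by_cases h : z a = 0
  · rw [h]; exact Nat.zero_le _
  · exact Finset.le_sup (f := z) (Finsupp.mem_support_iff.2 h)

theorem exists_eq_nrm (z : ℕ →₀ ℕ) (h : nrm z ≠ 0) : ∃ a, z a = nrm z := by
  by_contra hcon
  push Not at hcon
  have h2 : z.support.sup z < nrm z := by
    refine (Finset.sup_lt_iff (Nat.pos_of_ne_zero h)).2 ?_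
    intro b _
    exact lt_of_le_of_ne (le_nrm z b) (hcon b)
  exact lt_irrefl _ h2

theorem nrm_le {z : ℕ →₀ ℕ} {n : ℕ} (h : ∀ a, z a ≤ n) : nrm z ≤ n :=
  Finset.sup_le (fun a _ => h a)

theorem fac_mul_le {x : ℕ} {z : ℕ →₀ ℕ} (hz : IsFac S x z) (a : ℕ) : z a * a ≤ x := by
  rw [← hz.2, Finsupp.sum]
  by_cases h : z a = 0
  · rw [h, zero_mul]; exact Nat.zero_le _
  · exact Finset.single_le_sum (f := fun b => z b * b) (fun _ _ => Nat.zero_le _)
      (Finsupp.mem_support_iff.2 h)

theorem fac_add {x y : ℕ} {z w : ℕ →₀ ℕ} (hz : IsFac S x z) (hw : IsFac S y w) :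
    IsFac S (x + y) (z + w) := by
  refine ⟨?_, ?_⟩
  · intro a ha
    by_cases h : z a = 0
    · apply hw.1
      intro h'
      apply ha
      rw [Finsupp.add_apply, h, h']
    · exact hz.1 a h
  · rw [Finsupp.sum_add_index' (by simp) (by intros; ring), hz.2, hw.2]

theorem fac_single {a : ℕ} (ha : a ∈ gens S) (n : ℕ) : IsFac S (n * a) (Finsupp.single a n) := by
  refine ⟨?_, ?_⟩
  · intro b hb
    rw [Finsupp.single_apply] at hb
    by_cases h : a = b
    · rw [← h]; exact ha
    · rw [if_neg h] at hb; exact absurd rfl hb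
  · rw [Finsupp.sum_single_index (by simp)]

theorem fac_mem {x : ℕ} {z : ℕ →₀ ℕ} (hz : IsFac S x z) : x ∈ S := by
  rw [← hz.2, Finsupp.sum]
  apply AddSubmonoid.sum_mem
  intro a ha
  have : z a * a = z a • a := by rw [smul_eq_mul]
  rw [this]
  exact AddSubmonoid.nsmul_mem _ (hz.1 a (Finsupp.mem_support_iff.1 ha)).1 _

/-- every element has a factorization -/
theorem exists_fac : ∀ x : ℕ, x ∈ S → ∃ z, IsFac S x z := by
  intro x
  induction x using Nat.strong_induction_on with
  | _ x ih =>
    intro hx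
    by_cases h0 : x = 0
    · refine ⟨0, by simp, ?_⟩
      rw [h0]; simp
    · by_cases hg : x ∈ gens S
      · exact ⟨_, by simpa using fac_single hg 1⟩
      · have : ∃ b ∈ S, ∃ c ∈ S, b ≠ 0 ∧ c ≠ 0 ∧ x = b + c := by
          by_contra hcon
          apply hg
          refine ⟨hx, h0, ?_⟩
          intro b hb c hc hb0 hc0 he
          exact hcon ⟨b, hb, c, hc, hb0, hc0, he⟩
        obtain ⟨b, hb, c, hc, hb0, hc0, rfl⟩ := this
        obtain ⟨z, hz⟩ := ih b (by omega) hb
        obtain ⟨w, hw⟩ := ih c (by omega) hc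
        exact ⟨_, fac_add hz hw⟩

/-- removing the multiplicity of one generator -/
theorem fac_erase {x a : ℕ} {z : ℕ →₀ ℕ} (hz : IsFac S x z) :
    IsFac S (x - z a * a) (z.erase a) := by
  refine ⟨?_, ?_⟩
  · intro b hb
    apply hz.1
    intro h
    apply hb
    by_cases hab : b = a
    · rw [hab, Finsupp.erase_same]
    · rw [Finsupp.erase_ne hab, h]
  · have h1 : z.sum (fun a n => n * a) = z a * a + (z.erase a).sum (fun a n => n * a) := by
      conv_lhs => rw [← Finsupp.single_add_erase a z]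
      rw [Finsupp.sum_add_index' (by simp) (by intros; ring),
        Finsupp.sum_single_index (by simp)]
    rw [hz.2] at h1
    omega

section main

variable (hfin : ((S : Set ℕ)ᶜ).Finite) (hS : S ≠ ⊤)

include hfin hS

/-- The smallest minimal generator and another one. -/
theorem exists_gens : ∃ a ∈ gens S, 0 < a ∧ (∀ b ∈ gens S, b ≠ a → a < b) ∧
    ∃ b ∈ gens S, a < b := by
  classical
  have hne : ∃ a, a ∈ gens S := by
    by_contra hcon
    push Not at hcon
    have hall : ∀ x ∈ S, x = 0 := by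
      intro x hx
      obtain ⟨z, hz⟩ := exists_fac x hx
      have : z = 0 := by
        ext a
        by_contra h
        exact hcon a (hz.1 a h)
      rw [← hz.2, this]; simp
    apply Set.infinite_univ (α := ℕ)
    apply (hfin.union (Set.finite_singleton 0)).subset
    intro x _
    by_cases hx : x ∈ S
    · right; exact hall x hx
    · left; exact hx
  have h1 := Nat.find_spec hne
  have h2 : ∀ b ∈ gens S, b ≠ Nat.find hne → Nat.find hne < b := by
    intro b hb hne'
    exact lt_of_le_of_ne (Nat.find_min' hne hb) (Ne.symm hne')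
  refine ⟨Nat.find hne, h1, Nat.pos_of_ne_zero h1.2.1, h2, ?_⟩
  by_contra hcon
  push Not at hcon
  set a := Nat.find hne with ha
  have honly : ∀ b ∈ gens S, b = a := by
    intro b hb
    by_contra hba
    exact absurd (h2 b hb hba) (not_lt.2 (hcon b hb))
  have hmul : ∀ x ∈ S, a ∣ x := by
    intro x hx
    obtain ⟨z, hz⟩ := exists_fac x hx
    rw [← hz.2, Finsupp.sum]
    apply Finset.dvd_sum
    intro b hb
    rw [honly b (hz.1 b (Finsupp.mem_support_iff.1 hb))]
    exact dvd_mul_left _ _
  by_cases ha1 : a = 1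
  · apply hS
    rw [eq_top_iff]
    intro x _
    have : x = x • 1 := by simp
    rw [this, ← ha1]
    exact AddSubmonoid.nsmul_mem _ h1.1 _
  · have hapos : 0 < a := Nat.pos_of_ne_zero h1.2.1
    apply Set.not_infinite.2 hfin
    apply Set.infinite_of_injective_forall_mem (f := fun n : ℕ => n * a + 1)
    · intro m n hmn
      simp only [add_left_inj] at hmn
      exact Nat.eq_of_mul_eq_mul_right hapos hmn
    · intro n hn
      have h3 := hmul _ hn
      have h4 : a ∣ 1 := (Nat.dvd_add_right (dvd_mul_left a n)).1 h3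
      exact ha1 (Nat.dvd_one.1 h4)

theorem consecutive : ∃ c, 3 ≤ c ∧ c ∈ deltaInf S ∧ c - 1 ∈ deltaInf S := by
  classical
  obtain ⟨a, ha, ha0, hmin, b, hb, hab⟩ := exists_gens hfin hS
  -- the number c
  have hex : ∃ c : ℕ, 0 < c ∧ ∃ y, IsFac S (c * a) y ∧ y a = 0 := by
    refine ⟨b, by omega, Finsupp.single b a, ?_, ?_⟩
    · rw [mul_comm]; exact fac_single hb a
    · rw [Finsupp.single_apply, if_neg (by omega)]
  obtain ⟨hc0, y, hy, hya⟩ := Nat.find_spec hex
  have hcmin : ∀ s, 0 < s → s < Nat.find hex → ∀ y, IsFac S (s * a) y → y a ≠ 0 := by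
    intro s hs hsc y hy hya
    exact Nat.find_min hex hsc ⟨hs, y, hy, hya⟩
  set c := Nat.find hex with hc
  -- coordinates of factorizations of `N * a` other than `a` are small
  have hcoord : ∀ N : ℕ, ∀ z, IsFac S (N * a) z → ∀ i, i ≠ a → z i * (a + 1) ≤ N * a := by
    intro N z hz i hi
    by_cases h : z i = 0
    · rw [h, zero_mul]; exact Nat.zero_le _
    · have h1 := hmin i (hz.1 i h) hi
      calc z i * (a + 1) ≤ z i * i := Nat.mul_le_mul_left _ (by omega)
        _ ≤ N * a := fac_mul_le hz i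
  have hca : ∀ N : ℕ, ∀ z, IsFac S (N * a) z → z a ≤ N := by
    intro N z hz
    exact Nat.le_of_mul_le_mul_right (fac_mul_le hz a) ha0
  have hle : ∀ N : ℕ, ∀ z, IsFac S (N * a) z → nrm z ≤ N := by
    intro N z hz
    apply nrm_le
    intro i
    by_cases hi : i = a
    · rw [hi]; exact hca N z hz
    · have := hcoord N z hz i hi
      nlinarith [Nat.zero_le (z i)]
  have hN : ∀ N : ℕ, N ∈ LInf S (N * a) := by
    intro N
    refine ⟨_, fac_single ha N, ?_⟩
    apply le_antisymm
    · exact hle N _ (fac_single ha N)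
    · have := le_nrm (Finsupp.single a N) a
      rwa [Finsupp.single_eq_same] at this
  -- c is at least three
  have hynrm : nrm y < c := by
    by_contra hcon
    have h1 : nrm y ≠ 0 := by omega
    obtain ⟨i, hi⟩ := exists_eq_nrm y h1
    have hia : i ≠ a := by
      rintro rfl
      rw [hya] at hi
      exact h1 hi.symm
    have h2 := hcoord c y hy i hia
    rw [hi] at h2
    nlinarith
  have hy0 : 0 < nrm y := by
    rw [Nat.pos_iff_ne_zero]
    intro h
    have : y = 0 := by
      ext i
      have := le_nrm y i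
      simp only [Finsupp.coe_zero, Pi.zero_apply]
      omega
    have h2 := hy.2
    rw [this] at h2
    simp only [Finsupp.sum_zero_index] at h2
    have : 0 < c * a := Nat.mul_pos hc0 ha0
    omega
  have hc3 : 3 ≤ c := by
    by_contra hcon
    have hc2 : c = 2 := by omega
    have h1 : nrm y = 1 := by omega
    obtain ⟨i, hi⟩ := exists_eq_nrm y (by omega)
    have hia : i ≠ a := by
      rintro rfl
      rw [hya] at hi
      omega
    have hig : i ∈ gens S := hy.1 i (by omega)
    have hi2 : i < 2 * a := by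
      have h3 := fac_mul_le hy i
      rw [hi, h1, hc2] at h3
      rcases Nat.lt_or_ge i (2 * a) with h4 | h4
      · exact h4
      · exfalso
        have h5 : i = a + a := by omega
        exact hig.2.2 a ha.1 a ha.1 ha0.ne' ha0.ne' h5
    have her := fac_erase (a := i) hy
    rw [hi, h1, hc2] at her
    -- the rest is a positive number less than `a` in `S`
    have hpos : 0 < 2 * a - 1 * i := by omega
    have hlt : 2 * a - 1 * i < a := by
      have := hmin i hig hia
      omega
    obtain ⟨j, hj⟩ : ∃ j, (y.erase i) j ≠ 0 := by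
      by_contra hcon2
      push Not at hcon2
      have h6 : y.erase i = 0 := by
        ext j
        rw [hcon2 j]; rfl
      have h7 := her.2
      rw [h6] at h7
      simp only [Finsupp.sum_zero_index] at h7
      omega
    have h8 := fac_mul_le her j
    have h9 : a ≤ j := by
      by_cases hja : j = a
      · rw [hja]
      · exact (hmin j (her.1 j hj) hja).le
    have h10 : 1 ≤ (y.erase i) j := Nat.pos_of_ne_zero hj
    nlinarith
  -- the predicate
  let Q : ℕ → Prop := fun N => ∃ w ∈ LInf S (N * a), N < w + c ∧ w < N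
  have hQc : Q c := ⟨nrm y, ⟨y, hy, rfl⟩, by omega, hynrm⟩
  have hQlarge : ∀ N, (c - 1) * (a + 1) < N → ¬ Q N := by
    rintro N hNl ⟨w, ⟨z, hz, rfl⟩, h1, h2⟩
    have hNc : c - 1 < N := by nlinarith
    have h0 : nrm z ≠ 0 := by omega
    obtain ⟨i, hi⟩ := exists_eq_nrm z h0
    by_cases hia : i = a
    · subst hia
      have her := fac_erase (a := i) hz
      have h3 : N * i - z i * i = (N - z i) * i := by rw [Nat.sub_mul]
      rw [h3] at her
      exact hcmin (N - z i) (by omega) (by omega) _ her (Finsupp.erase_same)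
    · have h3 := hcoord N z hz i hia
      rw [hi] at h3
      obtain ⟨e, he⟩ : ∃ e, c = e + 1 := ⟨c - 1, by omega⟩
      rw [he] at hNl h1
      simp only [Nat.add_sub_cancel] at hNl
      have h4 : N ≤ nrm z + e := by omega
      nlinarith
  -- the last N with Q
  obtain ⟨N, hNQ, hNQ'⟩ : ∃ N, Q N ∧ ¬ Q (N + 1) := by
    by_contra hcon
    push Not at hcon
    have hall : ∀ k, Q (c + k) := by
      intro k
      induction k with
      | zero => exact hQc
      | succ k ih => exact hcon _ ih
    have := hall ((c - 1) * (a + 1) + 1)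
    exact hQlarge _ (by omega) this
  obtain ⟨w, hw, hw1, hw2⟩ := hNQ
  -- all norms in the window equal `N - c + 1`
  have hstep : ∀ w' ∈ LInf S (N * a), N < w' + c → w' < N → w' + c = N + 1 ∧
      w' ∈ LInf S ((N + 1) * a) := by
    rintro w' ⟨z, hz, rfl⟩ h1 h2
    have hz' : IsFac S ((N + 1) * a) (z + Finsupp.single a 1) := by
      have := fac_add hz (fac_single ha 1)
      rwa [show N * a + 1 * a = (N + 1) * a by ring] at this
    have h3 : nrm z ≤ nrm (z + Finsupp.single a 1) := by
      apply nrm_le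
      intro i
      calc z i ≤ (z + Finsupp.single a 1 : ℕ →₀ ℕ) i := by
            rw [Finsupp.add_apply]; exact Nat.le_add_right _ _
        _ ≤ _ := le_nrm _ i
    have h4 : nrm (z + Finsupp.single a 1) ≤ nrm z + 1 := by
      apply nrm_le
      intro i
      rw [Finsupp.add_apply]
      have h5 := le_nrm z i
      have h6 : (Finsupp.single a 1 : ℕ →₀ ℕ) i ≤ 1 := by
        rw [Finsupp.single_apply]
        split_ifs <;> omega
      omega
    have h5 : ¬ (N + 1 < nrm (z + Finsupp.single a 1) + c ∧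
        nrm (z + Finsupp.single a 1) < N + 1) := by
      rintro ⟨h6, h7⟩
      exact hNQ' ⟨_, ⟨_, hz', rfl⟩, h6, h7⟩
    have h8 : nrm z + c = N + 1 := by omega
    refine ⟨h8, ⟨_, hz', ?_⟩⟩
    omega
  obtain ⟨hwc, hwN⟩ := hstep w hw hw1 hw2
  refine ⟨c, hc3, ?_, ?_⟩
  · refine ⟨(N + 1) * a, fac_mem (fac_single ha (N + 1)), w, hwN, N + 1, hN (N + 1), by omega,
      ?_, by omega⟩
    rintro w' hw' ⟨h1, h2⟩
    exact hNQ' ⟨w', hw', by omega, h2⟩
  · refine ⟨N * a, fac_mem (fac_single ha N), w, hw, N, hN N, by omega, ?_, by omega⟩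
    rintro w' hw' ⟨h1, h2⟩
    have := (hstep w' hw' (by omega) h2).1
    omega

end main

/-- The semigroup `ℕ` has empty `Δ_∞`. -/
theorem deltaInf_top : deltaInf (⊤ : AddSubmonoid ℕ) = ∅ := by
  rw [Set.eq_empty_iff_forall_notMem]
  rintro d ⟨x, -, u, ⟨z, hz, rfl⟩, v, ⟨z', hz', rfl⟩, huv, -, -⟩
  have key : ∀ z, IsFac (⊤ : AddSubmonoid ℕ) x z → z = Finsupp.single 1 x := by
    intro z hz
    have h1 : ∀ a, a ≠ 1 → z a = 0 := by
      intro a ha
      by_contra h
      have hg := hz.1 a h
      have ha0 := hg.2.1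
      exact hg.2.2 1 (AddSubmonoid.mem_top _) (a - 1) (AddSubmonoid.mem_top _) (by omega)
        (by omega) (by omega)
    have h2 : z = Finsupp.single 1 (z 1) := by
      ext a
      by_cases ha : a = 1
      · rw [ha, Finsupp.single_eq_same]
      · rw [h1 a ha, Finsupp.single_apply, if_neg (Ne.symm ha)]
    have h3 := hz.2
    rw [h2, Finsupp.sum_single_index (by simp)] at h3
    rw [h2]
    simp only [mul_one] at h3
    rw [h3]
  rw [key z hz, key z' hz'] at huv
  exact lt_irrefl _ huv

/-- If `D` is a set of positive integers which contains `1` but no two consecutive integers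
`n - 1`, `n` with `n ≥ 3` (for example `D = {1}`, `D = {1, 2}`, or `D = {1, m}` for any `m ≥ 3`),
then no numerical semigroup `S` has `Δ_∞(S) = D`. -/
theorem result (D : Set ℕ) (h1 : 1 ∈ D) (hD : ∀ n, 3 ≤ n → n ∈ D → n - 1 ∉ D)
    (S : AddSubmonoid ℕ) (hfin : ((S : Set ℕ)ᶜ).Finite) : deltaInf S ≠ D := by
  intro h
  by_cases hS : S = ⊤
  · rw [hS, deltaInf_top] at h
    rw [← h] at h1
    exact h1
  · obtain ⟨c, hc3, hc, hc'⟩ := consecutive hfin hS
    rw [h] at hc hc'
    exact hD c hc3 hc hc'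

end Pool.Agent.Results.MP_86b878_co.InfinityDelta
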